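import Pool.Agent.ZFM.Main2

set_option autoImplicit false

universe u

namespace Pool.Agent.Results.MP_ae0fd6_lc.NoFiniteToOne

open Pool.Agent.ZFM

/-- In every model `M` of ZF, for every infinite set `A` of `M`, the set of all finitary
partitions of `A` exists and no function of `M` from it to `A` is finite-to-one. -/
theorem result (M : Type u) [FirstOrder.Language.Structure LSet M] (hM : ModelZF M)
    (A : M) (hA : ¬ IsFinite A) :
    ∃ BA : M, (∀ P, Mem P BA ↔ IsFinitaryPartition P A) ∧
      ¬ ∃ f : M, IsFunction f BA A ∧ IsFiniteToOne f := by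
  have hFPd : D (fun g : ℕ → M => FP (g 0) A) := by unfold FP; infer_instance
  have hex : ∀ P : M, P ∈ sep (pow (pow A)) (fun P => FP P A) ↔ IsFinitaryPartition P A := by
    intro P
    rw [mem_sep, isFP_iff, mem_pow]
    constructor
    · exact fun h => h.2
    · intro h
      refine ⟨fun B hB => ?_, h⟩
      rw [mem_pow]
      exact (h.1 B hB).2.1
  refine ⟨sep (pow (pow A)) (fun P => FP P A), hex, ?_⟩
  rintro ⟨f, hf, hff⟩
  rw [isFunction_iff] at hf
  rw [isFinite_iff] at hA
  refine main_false (A := A) (BB := sep (pow (pow A)) (fun P => FP P A)) (f := f) hA ?_ hf ?_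
  · intro P
    rw [hex P, isFP_iff]
  · intro z
    rw [← isFinite_iff]
    apply hff z
    intro P
    rw [pairIn_iff, hf.mem_iff]
    exact mem_sep

end Pool.Agent.Results.MP_ae0fd6_lc.NoFiniteToOne
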